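import Mathlib
import Pool.Agent.helper35.DR.SpecZ

/-!
# dr:ZNB: central `N`
-/

set_option autoImplicit false

namespace Pool.Agent.DR

open Pool.Agent.helper58.DC Pool.Agent.DI

theorem ZNB_tw {Q : Type} [Group Q] (q n : Q) : tw (1 : Q → Q → ℂˣ) q n = 1 := by
  simp [tw]

/-- The function attached to a linear character. -/
noncomputable def ZNB_fn {Q : Type} [Group Q] (M : Subgroup Q) (l : M →* ℂˣ) : Q → ℂ :=
  open Classical in fun n => if h : n ∈ M then ((l ⟨n, h⟩ : ℂˣ) : ℂ) else 0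

theorem ZNB_fn_mem {Q : Type} [Group Q] (M : Subgroup Q) (l : M →* ℂˣ) (n : Q) (h : n ∈ M) :
    ZNB_fn M l n = ((l ⟨n, h⟩ : ℂˣ) : ℂ) := by
  unfold ZNB_fn
  rw [dif_pos h]

theorem ZNB_fn_not {Q : Type} [Group Q] (M : Subgroup Q) (l : M →* ℂˣ) (n : Q) (h : n ∉ M) :
    ZNB_fn M l n = 0 := by
  unfold ZNB_fn
  rw [dif_neg h]

/-- Invariance of a linear character. -/
def ZNB_inv {Q : Type} [Group Q] (M : Subgroup Q) (hM : M.Normal) (l : M →* ℂˣ) : Prop :=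
  ∀ (q : Q) (n : M), l ⟨q * n * q⁻¹, hM.conj_mem n n.2 q⟩ = l n

theorem ZNB_card (hKCM : KCM_stmt) (hKLN : KLN_stmt) (Q : Type) [Group Q] [Finite Q]
    (M : Subgroup Q) (hM : M.Normal) (hc : ∀ x ∈ M, ∀ y ∈ M, x * y = y * x) :
    GN M 1 (fun _ => True) = Nat.card {l : M →* ℂˣ // ZNB_inv M hM l} := by
  classical
  have hone : (1 : Q → Q → ℂˣ) ∈ Coc Q := one_mem _
  have hP : ∀ l : M →* ℂˣ, PIrr M 1 (ZNB_fn M l) 1 := by
    intro l
    refine (hKLN Q M hM).1 1 hone (fun n => if h : n ∈ M then l ⟨n, h⟩ else 1) ?_ _ ?_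
      (fun n hn => ZNB_fn_not M l n hn)
    · intro n hn n' hn'
      simp only [dif_pos hn, dif_pos hn', dif_pos (M.mul_mem hn hn'), Pi.one_apply, one_mul]
      rw [← map_mul]
      rfl
    · intro n hn
      simp only [dif_pos hn]
      exact ZNB_fn_mem M l n hn
  have hI : ∀ l : M →* ℂˣ, ZNB_inv M hM l → PInv M 1 (ZNB_fn M l) := by
    intro l hl q n hn
    rw [ZNB_tw, Units.val_one, one_mul, ZNB_fn_mem M l n hn,
      ZNB_fn_mem M l (q * n * q⁻¹) (hM.conj_mem n hn q), hl q ⟨n, hn⟩]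
  symm
  refine Nat.card_congr (Equiv.ofBijective (fun l => ⟨ZNB_fn M l.1, 1, hP l.1, trivial,
    hI l.1 l.2⟩) ⟨?_, ?_⟩)
  · intro l l' hll
    have h1 : ZNB_fn M l.1 = ZNB_fn M l'.1 := congrArg Subtype.val hll
    apply Subtype.ext
    ext n
    have h2 := congrFun h1 n.1
    rw [ZNB_fn_mem M l.1 n.1 n.2, ZNB_fn_mem M l'.1 n.1 n.2] at h2
    exact h2
  · rintro ⟨σ, k, hσ, -, hinv⟩
    obtain ⟨-, b, hb1, hb2⟩ := hKCM Q M 1 hone (fun x hx y hy => ⟨rfl, hc x hx y hy⟩) σ k hσ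
    have hb3 : ∀ n ∈ M, ∀ n' ∈ M, b (n * n') = b n * b n' := by
      intro n hn n' hn'
      rw [hb2 n hn n' hn']
      simp
    let l : M →* ℂˣ := MonoidHom.mk' (fun n => b n.1) (fun x y => hb3 x.1 x.2 y.1 y.2)
    have hl : ZNB_inv M hM l := by
      intro q n
      have h1 := hinv q n.1 n.2
      rw [ZNB_tw, Units.val_one, one_mul, hb1 n.1 n.2,
        hb1 (q * n.1 * q⁻¹) (hM.conj_mem n.1 n.2 q)] at h1
      apply Units.ext
      exact h1.symm
    refine ⟨⟨l, hl⟩, ?_⟩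
    apply Subtype.ext
    funext n
    by_cases hn : n ∈ M
    · show ZNB_fn M l n = σ n
      rw [ZNB_fn_mem M l n hn, hb1 n hn]
      rfl
    · show ZNB_fn M l n = σ n
      rw [ZNB_fn_not M l n hn, hσ.off n hn]

theorem ZNB_GN (hKCM : KCM_stmt) (hKLN : KLN_stmt) (Q : Type) [Group Q] [Finite Q]
    (M : Subgroup Q) (hM : M.Normal) (hc : ∀ x ∈ M, ∀ y ∈ M, x * y = y * x) :
    GN M 1 (fun _ => True) ≤ Nat.card M ∧
      (GN M 1 (fun _ => True) = Nat.card M ↔ ∀ x ∈ M, ∀ y, x * y = y * x) := by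
  classical
  rw [ZNB_card hKCM hKLN Q M hM hc]
  let inst : CommGroup M :=
    { (inferInstance : Group M) with
      mul_comm := fun x y => Subtype.ext (hc x.1 x.2 y.1 y.2) }
  have hne : NeZero (Monoid.exponent M) := ⟨Monoid.exponent_ne_zero_of_finite⟩
  have hcard : Nat.card (M →* ℂˣ) = Nat.card M :=
    CommGroup.card_monoidHom_of_hasEnoughRootsOfUnity M ℂ
  have hfin : Finite (M →* ℂˣ) := by
    apply Nat.finite_of_card_ne_zero
    rw [hcard]
    exact Nat.card_pos.ne'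
  have hle : Nat.card {l : M →* ℂˣ // ZNB_inv M hM l} ≤ Nat.card M := by
    rw [← hcard]
    exact Nat.card_le_card_of_injective Subtype.val Subtype.val_injective
  refine ⟨hle, ?_⟩
  constructor
  · intro heq x hx y
    by_contra hxy
    have hne1 : (⟨y * x * y⁻¹ * x⁻¹, M.mul_mem (hM.conj_mem x hx y) (M.inv_mem hx)⟩ : M) ≠ 1 := by
      intro h1
      apply hxy
      have h2 : y * x * y⁻¹ * x⁻¹ = 1 := congrArg Subtype.val h1
      have h3 : y * x * y⁻¹ = x := by rwa [mul_inv_eq_one] at h2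
      have h4 : y * x = x * y := by rwa [mul_inv_eq_iff_eq_mul] at h3
      exact h4.symm
    obtain ⟨φ, hφ⟩ := CommGroup.exists_apply_ne_one_of_hasEnoughRootsOfUnity M ℂ hne1
    have hall : Function.Surjective (Subtype.val : {l : M →* ℂˣ // ZNB_inv M hM l} → (M →* ℂˣ)) := by
      have hb := (Nat.bijective_iff_injective_and_card
        (Subtype.val : {l : M →* ℂˣ // ZNB_inv M hM l} → (M →* ℂˣ))).2
        ⟨Subtype.val_injective, by rw [heq, hcard]⟩
      exact hb.2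
    obtain ⟨⟨l, hl⟩, hlφ⟩ := hall φ
    have hlφ' : l = φ := hlφ
    subst hlφ'
    apply hφ
    have h5 := hl y ⟨x, hx⟩
    have h6 : (⟨y * x * y⁻¹ * x⁻¹, M.mul_mem (hM.conj_mem x hx y) (M.inv_mem hx)⟩ : M) =
        ⟨y * x * y⁻¹, hM.conj_mem x hx y⟩ * (⟨x, hx⟩ : M)⁻¹ := rfl
    rw [h6, map_mul, map_inv, h5, mul_inv_cancel]
  · intro hcen
    rw [← hcard]
    apply Nat.card_congr
    refine Equiv.subtypeUnivEquiv ?_
    intro l q n
    have h1 : (⟨q * n * q⁻¹, hM.conj_mem n n.2 q⟩ : M) = n := by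
      apply Subtype.ext
      show q * n.1 * q⁻¹ = n.1
      rw [← hcen n.1 n.2 q, mul_inv_cancel_right]
    rw [h1]

/-- Commutators with an element of the preimage of a central subgroup of prime order. -/
theorem ZNB_hom {Q A : Type} [Group Q] [Group A] (π : Q →* A) (N : Subgroup A)
    (hker : ∀ x ∈ π.ker, ∀ y, x * y = y * x) (hN : ∀ a : A, ∀ x ∈ N, a * x = x * a)
    (hp : (Nat.card N).Prime) (x : Q) (hx : x ∈ N.comap π) :
    ∃ f : Q →* π.ker, (∀ a, ((f a : π.ker) : Q) = a * x * a⁻¹ * x⁻¹) ∧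
      ∀ a ∈ N.comap π, f a = 1 := by
  have hmem : ∀ a, a * x * a⁻¹ * x⁻¹ ∈ π.ker := by
    intro a
    rw [MonoidHom.mem_ker, map_mul, map_mul, map_mul, map_inv, map_inv]
    rw [hN (π a) (π x) hx, mul_inv_cancel_right, mul_inv_cancel]
  let f : Q →* π.ker := MonoidHom.mk' (fun a => ⟨a * x * a⁻¹ * x⁻¹, hmem a⟩) (by
    intro a b
    apply Subtype.ext
    show (a * b) * x * (a * b)⁻¹ * x⁻¹ = (a * x * a⁻¹ * x⁻¹) * (b * x * b⁻¹ * x⁻¹)
    have h1 := hker _ (hmem b) (a * x * a⁻¹ * x⁻¹)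
    rw [← h1]
    have h2 := hker _ (hmem b) a
    calc (a * b) * x * (a * b)⁻¹ * x⁻¹
        = (a * (b * x * b⁻¹ * x⁻¹)) * x * a⁻¹ * x⁻¹ := by group
      _ = ((b * x * b⁻¹ * x⁻¹) * a) * x * a⁻¹ * x⁻¹ := by rw [h2]
      _ = (b * x * b⁻¹ * x⁻¹) * (a * x * a⁻¹ * x⁻¹) := by group)
  have hf : ∀ a, ((f a : π.ker) : Q) = a * x * a⁻¹ * x⁻¹ := fun a => rfl
  refine ⟨f, hf, ?_⟩
  intro a ha
  by_cases hx1 : π x = 1
  · apply Subtype.ext
    rw [hf]
    have h1 := hker x hx1 a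
    show a * x * a⁻¹ * x⁻¹ = 1
    rw [← h1, mul_inv_cancel_right, mul_inv_cancel]
  · have hfact : Fact (Nat.card N).Prime := ⟨hp⟩
    have hne : (⟨π x, hx⟩ : N) ≠ 1 := by
      intro h
      exact hx1 (congrArg Subtype.val h)
    obtain ⟨i, hi⟩ := mem_zpowers_of_prime_card (p := Nat.card N) rfl hne
      (g' := (⟨π a, ha⟩ : N))
    have hi' : π x ^ i = π a := congrArg Subtype.val hi
    have hz : a * (x ^ i)⁻¹ ∈ π.ker := by
      rw [MonoidHom.mem_ker, map_mul, map_inv, map_zpow, hi', mul_inv_cancel]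
    have hfx : f x = 1 := by
      apply Subtype.ext
      rw [hf]
      show x * x * x⁻¹ * x⁻¹ = 1
      group
    have hfz : f (a * (x ^ i)⁻¹) = 1 := by
      apply Subtype.ext
      rw [hf]
      have h1 := hker _ hz x
      show a * (x ^ i)⁻¹ * x * (a * (x ^ i)⁻¹)⁻¹ * x⁻¹ = 1
      rw [h1, mul_inv_cancel_right, mul_inv_cancel]
    have : a = a * (x ^ i)⁻¹ * x ^ i := by rw [inv_mul_cancel_right]
    rw [this, map_mul, hfz, map_zpow, hfx, one_zpow, one_mul]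

theorem ZNB (hZFN : ZFN_stmt) (hGCC : GCC_stmt) (hKCM : KCM_stmt) (hKLN : KLN_stmt) :
    ZNB_stmt := by
  intro A _ _ N hN hcen n hn
  obtain ⟨-, -, hfin, -, -, hker, -, hcard, -, -⟩ := hZFN A n hn
  have hp := (hGCC A N hN hcen).1
  have hhom := fun x hx => ZNB_hom (prC A n) N hker hcen hp x hx
  have hNn : N.Normal := hN.nor
  have hM : (N.comap (prC A n)).Normal := hNn.comap _
  have hc : ∀ x ∈ N.comap (prC A n), ∀ y ∈ N.comap (prC A n), x * y = y * x := by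
    intro x hx y hy
    obtain ⟨f, hf1, hf2⟩ := hhom y hy
    have h1 := hf1 x
    rw [hf2 x hx] at h1
    have h2 : x * y * x⁻¹ * y⁻¹ = 1 := h1.symm
    rw [mul_inv_eq_one, mul_inv_eq_iff_eq_mul] at h2
    exact h2
  obtain ⟨h1, h2⟩ := ZNB_GN hKCM hKLN (Cv A n) (N.comap (prC A n)) hM hc
  rw [hcard N] at h1 h2
  exact ⟨h1, h2, hhom⟩

end Pool.Agent.DR
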